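import Mathlib

/-! Invariant classes in the second cohomology of a normal subgroup. -/

namespace Pool.Agent.H6.Ext

variable {G Q k : Type*} [Group G] [Group Q] [CommRing k]

/-- an element of the kernel -/
lemma shift (π : G →* Q) (s : Q → G) (hs : ∀ q, π (s q) = q) (g : G) (q : Q) :
    ∃ n : G, π n = 1 ∧ ∀ x, (s (π g * q))⁻¹ * (g * x) = n * ((s q)⁻¹ * x) := by
  refine ⟨(s (π g * q))⁻¹ * g * s q, ?_, fun x => by group⟩
  simp [hs]

/-- a `1`-cocycle on `G`, invariant under the kernel -/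
structure Coc (π : G →* Q) (w : G → G → k) : Prop where
  coc : ∀ x y z, w y z - w x z + w x y = 0
  inv : ∀ n, π n = 1 → ∀ x y, w (n * x) (n * y) = w x y

lemma Coc.self {π : G →* Q} {w : G → G → k} (h : Coc π w) (x : G) : w x x = 0 := by
  have := h.coc x x x
  linear_combination this

lemma Coc.anti {π : G →* Q} {w : G → G → k} (h : Coc π w) (x y : G) : w y x = - w x y := by
  linear_combination h.coc x y x + h.self x

lemma Coc.base {π : G →* Q} {w : G → G → k} (h : Coc π w) {n : G} (hn : π n = 1) (x y : G) :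
    w x (n * x) = w y (n * y) := by
  have h1 := h.coc y x (n * x)
  have h2 := h.coc y (n * y) (n * x)
  have h3 := h.inv n hn y x
  linear_combination h1 - h2 + h3

lemma Coc.add {π : G →* Q} {w : G → G → k} (h : Coc π w) {n m : G} (hn : π n = 1) :
    w 1 (n * m) = w 1 n + w 1 m := by
  have h1 := h.coc 1 n (n * m)
  have h2 := h.inv n hn 1 m
  rw [mul_one] at h2
  linear_combination -h1 + h2

lemma Coc.right {π : G →* Q} {w : G → G → k} (h : Coc π w) (h0 : ∀ n, π n = 1 → w 1 n = 0)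
    {n : G} (hn : π n = 1) (x y : G) : w x (n * y) = w x y := by
  have h1 := h.coc x y (n * y)
  have h2 := h.base hn y 1
  rw [mul_one, h0 n hn] at h2
  linear_combination h2 - h1

lemma Coc.left {π : G →* Q} {w : G → G → k} (h : Coc π w) (h0 : ∀ n, π n = 1 → w 1 n = 0)
    {n : G} (hn : π n = 1) (x y : G) : w (n * x) y = w x y := by
  rw [h.anti, h.right h0 hn, h.anti, neg_neg]

/-- the vanishing of `H²(G; k)`, trivial action -/
def H2 (G k : Type*) [Group G] [CommRing k] : Prop :=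
  ∀ c : G → G → k, (∀ x y z, c y z - c (x * y) z + c x (y * z) - c x y = 0) →
    ∃ b : G → k, ∀ x y, c x y = b y - b (x * y) + b x

/-- the vanishing of `H³(Q; k)`, trivial action -/
def H3 (Q k : Type*) [Group Q] [CommRing k] : Prop :=
  ∀ c : Q → Q → Q → k,
    (∀ x y z w, c y z w - c (x * y) z w + c x (y * z) w - c x y (z * w) + c x y z = 0) →
    ∃ b : Q → Q → k, ∀ x y z, c x y z = b y z - b (x * y) z + b x (y * z) - b x y

/-- the vanishing of `H²(Q; H¹(N; k))`, `N` the kernel of `π` -/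
def H21 (π : G →* Q) (k : Type*) [CommRing k] : Prop :=
  ∀ z : Q → Q → G → k,
    (∀ q r n m, π n = 1 → π m = 1 → z q r (n * m) = z q r n + z q r m) →
    (∀ g r t n, π n = 1 →
      z r t (g⁻¹ * n * g) - z (π g * r) t n + z (π g) (r * t) n - z (π g) r n = 0) →
    ∃ y : Q → G → k, (∀ q n m, π n = 1 → π m = 1 → y q (n * m) = y q n + y q m) ∧
      ∀ g r n, π n = 1 → z (π g) r n = y r (g⁻¹ * n * g) - y (π g * r) n + y (π g) n

theorem invariant_class (π : G →* Q) (hπ : Function.Surjective π)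
    (hG : H2 G k) (hQ : H3 Q k) (hQN : H21 π k) (c : G → G → k)
    (hc : ∀ x y z, π x = 1 → π y = 1 → π z = 1 →
      c y z - c (x * y) z + c x (y * z) - c x y = 0)
    (hinv : ∀ g : G, ∃ b : G → k, ∀ x y, π x = 1 → π y = 1 →
      c (g⁻¹ * x * g) (g⁻¹ * y * g) - c x y = b y - b (x * y) + b x) :
    ∃ b : G → k, ∀ x y, π x = 1 → π y = 1 → c x y = b y - b (x * y) + b x := by
  classical
  -- a normalised section and the retraction onto the kernel
  obtain ⟨s, hs, hs1⟩ : ∃ s : Q → G, (∀ q, π (s q) = q) ∧ s 1 = 1 := by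
    choose t ht using hπ
    refine ⟨fun q => if q = 1 then 1 else t q, fun q => ?_, by simp⟩
    by_cases h : q = 1
    · simp [h]
    · simp [h, ht]
  set ρ : G → G := fun x => x * (s (π x))⁻¹ with hρ
  have ρN : ∀ x, π (ρ x) = 1 := fun x => by simp [hρ, hs]
  have ρmul : ∀ n x, π n = 1 → ρ (n * x) = n * ρ x := fun n x hn => by
    simp [hρ, hn, mul_assoc]
  have ρid : ∀ n, π n = 1 → ρ n = n := fun n hn => by simp [hρ, hn, hs1]
  have sh := shift π s hs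
  -- homogeneous form of `c`
  set C : G → G → G → k := fun x y z => c (x⁻¹ * y) (y⁻¹ * z) with hC
  have Cinv : ∀ a x y z, C (a * x) (a * y) (a * z) = C x y z := fun a x y z => by
    simp only [hC]
    congr 1 <;> group
  have Ccoc : ∀ x y z w, π x = 1 → π y = 1 → π z = 1 → π w = 1 →
      C y z w - C x z w + C x y w - C x y z = 0 := by
    intro x y z w hx hy hz hw
    have := hc (x⁻¹ * y) (y⁻¹ * z) (z⁻¹ * w) (by simp [hx, hy]) (by simp [hy, hz])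
      (by simp [hz, hw])
    have e1 : x⁻¹ * y * (y⁻¹ * z) = x⁻¹ * z := by group
    have e2 : y⁻¹ * z * (z⁻¹ * w) = y⁻¹ * w := by group
    rw [e1, e2] at this
    exact this
  -- step 1
  have step1 : ∀ q : Q, ∃ ψ : G → G → k, (∀ n x y, π n = 1 → ψ (n * x) (n * y) = ψ x y) ∧
      ∀ x y z, C (ρ ((s q)⁻¹ * x)) (ρ ((s q)⁻¹ * y)) (ρ ((s q)⁻¹ * z)) - C (ρ x) (ρ y) (ρ z) =
        ψ y z - ψ x z + ψ x y := by
    intro q
    obtain ⟨b, hb⟩ := hinv (s q)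
    set g := s q with hg
    have σN : ∀ x, π (ρ (g⁻¹ * x)) = 1 := fun x => ρN _
    have τN : ∀ x, π (g⁻¹ * ρ x * g) = 1 := fun x => by simp [ρN]
    have σmul : ∀ n x, π n = 1 → ρ (g⁻¹ * (n * x)) = (g⁻¹ * n * g) * ρ (g⁻¹ * x) := by
      intro n x hn
      rw [← ρmul _ _ (by simp [hn])]
      congr 1
      group
    have τmul : ∀ n x, π n = 1 → g⁻¹ * ρ (n * x) * g = (g⁻¹ * n * g) * (g⁻¹ * ρ x * g) := by
      intro n x hn
      rw [ρmul _ _ hn]
      group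
    refine ⟨fun x y => C (g⁻¹ * ρ x * g) (ρ (g⁻¹ * x)) (ρ (g⁻¹ * y)) -
      C (g⁻¹ * ρ x * g) (g⁻¹ * ρ y * g) (ρ (g⁻¹ * y)) + b ((ρ x)⁻¹ * ρ y), ?_, ?_⟩
    · intro n x y hn
      simp only
      rw [σmul n x hn, σmul n y hn, τmul n x hn, τmul n y hn, Cinv, Cinv, ρmul n x hn,
        ρmul n y hn]
      congr 2
      group
    · intro x y z
      simp only
      have t1 := Ccoc _ _ _ _ (τN x) (σN x) (σN y) (σN z)
      have t2 := Ccoc _ _ _ _ (τN x) (τN y) (σN y) (σN z)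
      have t3 := Ccoc _ _ _ _ (τN x) (τN y) (τN z) (σN z)
      have t4 := hb ((ρ x)⁻¹ * ρ y) ((ρ y)⁻¹ * ρ z) (by simp [ρN]) (by simp [ρN])
      have e1 : (ρ x)⁻¹ * ρ y * ((ρ y)⁻¹ * ρ z) = (ρ x)⁻¹ * ρ z := by group
      have e2 : g⁻¹ * ((ρ x)⁻¹ * ρ y) * g = (g⁻¹ * ρ x * g)⁻¹ * (g⁻¹ * ρ y * g) := by group
      have e3 : g⁻¹ * ((ρ y)⁻¹ * ρ z) * g = (g⁻¹ * ρ y * g)⁻¹ * (g⁻¹ * ρ z * g) := by group
      rw [e1, e2, e3] at t4
      have t5 : C (g⁻¹ * ρ x * g) (g⁻¹ * ρ y * g) (g⁻¹ * ρ z * g) - C (ρ x) (ρ y) (ρ z) =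
        b ((ρ y)⁻¹ * ρ z) - b ((ρ x)⁻¹ * ρ z) + b ((ρ x)⁻¹ * ρ y) := t4
      linear_combination t1 - t2 + t3 + t5
  choose ψ1 ψ1inv ψ1d using step1
  set Φ : Q → G → G → G → k := fun q x y z =>
    C (ρ ((s q)⁻¹ * x)) (ρ ((s q)⁻¹ * y)) (ρ ((s q)⁻¹ * z)) with hΦ
  have Φeq : ∀ g q x y z, Φ (π g * q) (g * x) (g * y) (g * z) = Φ q x y z := by
    intro g q x y z
    obtain ⟨n, hn, h⟩ := sh g q
    simp only [hΦ]
    rw [h, h, h, ρmul _ _ hn, ρmul _ _ hn, ρmul _ _ hn, Cinv]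
  have Φcoc : ∀ q x y z w, Φ q y z w - Φ q x z w + Φ q x y w - Φ q x y z = 0 :=
    fun q x y z w => Ccoc _ _ _ _ (ρN _) (ρN _) (ρN _) (ρN _)
  -- step 2
  set ψ : Q → Q → G → G → k := fun q0 q1 x y =>
    ψ1 (q0⁻¹ * q1) ((s q0)⁻¹ * x) ((s q0)⁻¹ * y) with hψ
  have ψeq : ∀ g q0 q1 x y, ψ (π g * q0) (π g * q1) (g * x) (g * y) = ψ q0 q1 x y := by
    intro g q0 q1 x y
    obtain ⟨n, hn, h⟩ := sh g q0
    simp only [hψ]
    have e : (π g * q0)⁻¹ * (π g * q1) = q0⁻¹ * q1 := by group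
    rw [h, h, ψ1inv _ _ _ _ hn, e]
  have ψd : ∀ q0 q1 x y z, Φ q1 x y z - Φ q0 x y z =
      ψ q0 q1 y z - ψ q0 q1 x z + ψ q0 q1 x y := by
    intro q0 q1 x y z
    have h1 := ψ1d (q0⁻¹ * q1) ((s q0)⁻¹ * x) ((s q0)⁻¹ * y) ((s q0)⁻¹ * z)
    obtain ⟨n, hn, h⟩ := sh (s q0) (q0⁻¹ * q1)
    have e : π (s q0) * (q0⁻¹ * q1) = q1 := by rw [hs]; group
    rw [e] at h
    have e2 : ∀ x, (s q1)⁻¹ * x = n * ((s (q0⁻¹ * q1))⁻¹ * ((s q0)⁻¹ * x)) := by
      intro x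
      rw [← h]
      group
    have e3 : Φ q1 x y z = C (ρ ((s (q0⁻¹ * q1))⁻¹ * ((s q0)⁻¹ * x)))
        (ρ ((s (q0⁻¹ * q1))⁻¹ * ((s q0)⁻¹ * y))) (ρ ((s (q0⁻¹ * q1))⁻¹ * ((s q0)⁻¹ * z))) := by
      simp only [hΦ]
      rw [e2 x, e2 y, e2 z, ρmul _ _ hn, ρmul _ _ hn, ρmul _ _ hn, Cinv]
    rw [e3]
    exact h1
  -- step 3
  set W : Q → Q → Q → G → G → k := fun q0 q1 q2 x y =>
    ψ q1 q2 x y - ψ q0 q2 x y + ψ q0 q1 x y with hW
  have Weq : ∀ g q0 q1 q2 x y, W (π g * q0) (π g * q1) (π g * q2) (g * x) (g * y) =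
      W q0 q1 q2 x y := by
    intro g q0 q1 q2 x y
    simp only [hW]
    rw [ψeq, ψeq, ψeq]
  have Wcoc : ∀ q0 q1 q2, Coc π (W q0 q1 q2) := by
    intro q0 q1 q2
    refine ⟨fun x y z => ?_, fun n hn x y => ?_⟩
    · simp only [hW]
      linear_combination (ψd q0 q2 x y z) - (ψd q1 q2 x y z) - (ψd q0 q1 x y z)
    · have := Weq n q0 q1 q2 x y
      rwa [hn, one_mul, one_mul, one_mul] at this
  obtain ⟨y, yadd, yd⟩ := hQN (fun q r n => W 1 q (q * r) 1 n)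
    (fun q r n m hn _ => (Wcoc _ _ _).add hn) (by
      intro g r t n hn
      have h1 := Weq g 1 r (r * t) 1 (g⁻¹ * n * g)
      have e : g * (g⁻¹ * n * g) = n * g := by group
      rw [e, mul_one, mul_one, (Wcoc _ _ _).base hn g 1, mul_one] at h1
      have e2 : π g * r * t = π g * (r * t) := mul_assoc _ _ _
      rw [← h1, e2]
      simp only [hW]
      ring)
  -- step 4
  set lam : Q → Q → G → G → k := fun q0 q1 x z =>
    y (q0⁻¹ * q1) ((ρ ((s q0)⁻¹ * x))⁻¹ * ρ ((s q0)⁻¹ * z)) with hlam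
  have lameq : ∀ g q0 q1 x z, lam (π g * q0) (π g * q1) (g * x) (g * z) = lam q0 q1 x z := by
    intro g q0 q1 x z
    obtain ⟨n, hn, h⟩ := sh g q0
    simp only [hlam]
    have e : (π g * q0)⁻¹ * (π g * q1) = q0⁻¹ * q1 := by group
    rw [h, h, ρmul _ _ hn, ρmul _ _ hn, e]
    congr 1
    group
  have lamcoc : ∀ q0 q1, Coc π (lam q0 q1) := by
    intro q0 q1
    refine ⟨fun x z t => ?_, fun n hn x z => ?_⟩
    · simp only [hlam]
      have h1 := yadd (q0⁻¹ * q1) ((ρ ((s q0)⁻¹ * x))⁻¹ * ρ ((s q0)⁻¹ * z))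
        ((ρ ((s q0)⁻¹ * z))⁻¹ * ρ ((s q0)⁻¹ * t)) (by simp [ρN]) (by simp [ρN])
      have e : (ρ ((s q0)⁻¹ * x))⁻¹ * ρ ((s q0)⁻¹ * z) *
          ((ρ ((s q0)⁻¹ * z))⁻¹ * ρ ((s q0)⁻¹ * t)) =
          (ρ ((s q0)⁻¹ * x))⁻¹ * ρ ((s q0)⁻¹ * t) := by group
      rw [e] at h1
      linear_combination -h1
    · have := lameq n q0 q1 x z
      rwa [hn, one_mul, one_mul] at this
  have lamn : ∀ q0 q1 n, π n = 1 → lam q0 q1 1 n = y (q0⁻¹ * q1) ((s q0)⁻¹ * n * s q0) := by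
    intro q0 q1 n hn
    have h1 := (lamcoc q0 q1).base hn (s q0) 1
    rw [mul_one] at h1
    rw [← h1]
    simp only [hlam]
    have e1 : (s q0)⁻¹ * s q0 = 1 := by group
    have e2 : (s q0)⁻¹ * (n * s q0) = (s q0)⁻¹ * n * s q0 := by group
    rw [e1, e2, ρid 1 (map_one π), ρid ((s q0)⁻¹ * n * s q0) (by simp [hn])]
    simp
  -- step 5
  set W' : Q → Q → Q → G → G → k := fun q0 q1 q2 x z =>
    W q0 q1 q2 x z - (lam q1 q2 x z - lam q0 q2 x z + lam q0 q1 x z) with hW'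
  have W'eq : ∀ g q0 q1 q2 x z, W' (π g * q0) (π g * q1) (π g * q2) (g * x) (g * z) =
      W' q0 q1 q2 x z := by
    intro g q0 q1 q2 x z
    simp only [hW']
    rw [Weq, lameq, lameq, lameq]
  have W'coc : ∀ q0 q1 q2, Coc π (W' q0 q1 q2) := by
    intro q0 q1 q2
    refine ⟨fun x z t => ?_, fun n hn x z => ?_⟩
    · simp only [hW']
      linear_combination (Wcoc q0 q1 q2).coc x z t - (lamcoc q1 q2).coc x z t +
        (lamcoc q0 q2).coc x z t - (lamcoc q0 q1).coc x z t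
    · have := W'eq n q0 q1 q2 x z
      rwa [hn, one_mul, one_mul, one_mul] at this
  have W'0 : ∀ q0 q1 q2 n, π n = 1 → W' q0 q1 q2 1 n = 0 := by
    have base : ∀ q r n, π n = 1 → W' 1 q (q * r) 1 n = 0 := by
      intro q r n hn
      have h1 := yd (s q) r n hn
      rw [hs] at h1
      simp only [hW']
      rw [lamn _ _ _ hn, lamn _ _ _ hn, lamn _ _ _ hn]
      have e1 : q⁻¹ * (q * r) = r := by group
      have e2 : (1 : Q)⁻¹ * (q * r) = q * r := by group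
      have e3 : (1 : Q)⁻¹ * q = q := by group
      have e4 : (1 : G)⁻¹ * n * 1 = n := by group
      rw [e1, e2, e3, hs1, e4]
      linear_combination h1
    intro q0 q1 q2 n hn
    have h1 := W'eq (s q0)⁻¹ q0 q1 q2 1 n
    have e1 : π (s q0)⁻¹ * q0 = 1 := by rw [map_inv, hs]; group
    have e2 : π (s q0)⁻¹ * q1 = q0⁻¹ * q1 := by rw [map_inv, hs]
    have e3 : π (s q0)⁻¹ * q2 = q0⁻¹ * q1 * (q1⁻¹ * q2) := by rw [map_inv, hs]; group
    have e4 : (s q0)⁻¹ * n = ((s q0)⁻¹ * n * s q0) * (s q0)⁻¹ := by group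
    have hn' : π ((s q0)⁻¹ * n * s q0) = 1 := by simp [hn]
    rw [e1, e2, e3, mul_one, e4, (W'coc _ _ _).base hn' ((s q0)⁻¹) 1, mul_one,
      base _ _ _ hn'] at h1
    exact h1.symm
  -- step 6
  set χ : Q → Q → Q → G → k := fun q0 q1 q2 x => W' q0 q1 q2 (s q0) x with hχ
  have χd : ∀ q0 q1 q2 x z, χ q0 q1 q2 z - χ q0 q1 q2 x = W' q0 q1 q2 x z := by
    intro q0 q1 q2 x z
    simp only [hχ]
    linear_combination -((W'coc q0 q1 q2).coc (s q0) x z)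
  have χeq : ∀ g q0 q1 q2 x, χ (π g * q0) (π g * q1) (π g * q2) (g * x) = χ q0 q1 q2 x := by
    intro g q0 q1 q2 x
    simp only [hχ]
    have e : s (π g * q0) = (s (π g * q0) * (g * s q0)⁻¹) * (g * s q0) := by group
    have hn : π (s (π g * q0) * (g * s q0)⁻¹) = 1 := by simp [hs]
    rw [e, (W'coc _ _ _).left (fun n hn => W'0 _ _ _ n hn) hn, W'eq]
  -- step 7
  set κ : Q → Q → Q → Q → G → k := fun q0 q1 q2 q3 x =>
    χ q1 q2 q3 x - χ q0 q2 q3 x + χ q0 q1 q3 x - χ q0 q1 q2 x with hκ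
  have κind : ∀ q0 q1 q2 q3 x, κ q0 q1 q2 q3 x = κ q0 q1 q2 q3 1 := by
    intro q0 q1 q2 q3 x
    have h1 := χd q1 q2 q3 1 x
    have h2 := χd q0 q2 q3 1 x
    have h3 := χd q0 q1 q3 1 x
    have h4 := χd q0 q1 q2 1 x
    simp only [hW', hW] at h1 h2 h3 h4
    simp only [hκ]
    linear_combination h1 - h2 + h3 - h4
  have κeq : ∀ g q0 q1 q2 q3, κ (π g * q0) (π g * q1) (π g * q2) (π g * q3) 1 =
      κ q0 q1 q2 q3 1 := by
    intro g q0 q1 q2 q3
    rw [← κind _ _ _ _ (g * 1)]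
    simp only [hκ]
    rw [χeq, χeq, χeq, χeq]
  obtain ⟨b3, hb3⟩ := hQ (fun x y z => κ 1 x (x * y) (x * y * z) 1) (by
    intro x y z w
    obtain ⟨g, hg⟩ := hπ x
    have h1 := κeq g 1 y (y * z) (y * z * w)
    rw [hg, mul_one] at h1
    rw [← h1]
    have e1 : x * (y * z) = x * y * z := by group
    have e2 : x * (y * z * w) = x * y * z * w := by group
    have e3 : x * y * (z * w) = x * y * z * w := by group
    rw [e1, e2, e3]
    simp only [hκ]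
    ring)
  set ω : Q → Q → Q → k := fun q0 q1 q2 => b3 (q0⁻¹ * q1) (q1⁻¹ * q2) with hω
  have ωd : ∀ q0 q1 q2 q3, ω q1 q2 q3 - ω q0 q2 q3 + ω q0 q1 q3 - ω q0 q1 q2 =
      κ q0 q1 q2 q3 1 := by
    intro q0 q1 q2 q3
    have h1 := hb3 (q0⁻¹ * q1) (q1⁻¹ * q2) (q2⁻¹ * q3)
    have h2 := κeq (s q0)⁻¹ q0 q1 q2 q3
    have f1 : π (s q0)⁻¹ * q0 = 1 := by rw [map_inv, hs]; group
    have f2 : π (s q0)⁻¹ * q1 = q0⁻¹ * q1 := by rw [map_inv, hs]
    have f3 : π (s q0)⁻¹ * q2 = q0⁻¹ * q1 * (q1⁻¹ * q2) := by rw [map_inv, hs]; group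
    have f4 : π (s q0)⁻¹ * q3 = q0⁻¹ * q1 * (q1⁻¹ * q2) * (q2⁻¹ * q3) := by
      rw [map_inv, hs]; group
    rw [f1, f2, f3, f4] at h2
    rw [h2] at h1
    have g1 : q0⁻¹ * q1 * (q1⁻¹ * q2) = q0⁻¹ * q2 := by group
    have g2 : q1⁻¹ * q2 * (q2⁻¹ * q3) = q1⁻¹ * q3 := by group
    rw [g1, g2] at h1
    simp only [hω]
    linear_combination -h1
  -- step 8
  set χ' : Q → Q → Q → G → k := fun q0 q1 q2 x => χ q0 q1 q2 x - ω q0 q1 q2 with hχ'
  have χ'h : ∀ q0 q1 q2 q3 x,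
      χ' q1 q2 q3 x - χ' q0 q2 q3 x + χ' q0 q1 q3 x - χ' q0 q1 q2 x = 0 := by
    intro q0 q1 q2 q3 x
    have h1 := κind q0 q1 q2 q3 x
    have h2 := ωd q0 q1 q2 q3
    simp only [hκ] at h1 h2
    simp only [hχ']
    linear_combination h1 - h2
  have χ'd : ∀ q0 q1 q2 x z, χ' q0 q1 q2 z - χ' q0 q1 q2 x = W' q0 q1 q2 x z := by
    intro q0 q1 q2 x z
    simp only [hχ']
    linear_combination χd q0 q1 q2 x z
  have χ'eq : ∀ g q0 q1 q2 x, χ' (π g * q0) (π g * q1) (π g * q2) (g * x) = χ' q0 q1 q2 x := by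
    intro g q0 q1 q2 x
    have e1 : (π g * q0)⁻¹ * (π g * q1) = q0⁻¹ * q1 := by group
    have e2 : (π g * q1)⁻¹ * (π g * q2) = q1⁻¹ * q2 := by group
    simp only [hχ', hω]
    rw [χeq, e1, e2]
  -- step 9
  set ψ'' : Q → Q → G → G → k := fun q0 q1 x z =>
    ψ q0 q1 x z - lam q0 q1 x z - (χ' (π z) q0 q1 z - χ' (π x) q0 q1 x) with hψ''
  have ψ''h : ∀ q0 q1 q2 x z, ψ'' q1 q2 x z - ψ'' q0 q2 x z + ψ'' q0 q1 x z = 0 := by
    intro q0 q1 q2 x z
    have h1 := χ'h (π z) q0 q1 q2 z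
    have h2 := χ'h (π x) q0 q1 q2 x
    have h3 := χ'd q0 q1 q2 x z
    simp only [hW', hW] at h3
    simp only [hψ'']
    linear_combination h1 - h2 - h3
  have ψ''eq : ∀ g q0 q1 x z, ψ'' (π g * q0) (π g * q1) (g * x) (g * z) = ψ'' q0 q1 x z := by
    intro g q0 q1 x z
    simp only [hψ'', map_mul]
    rw [ψeq, lameq, χ'eq, χ'eq]
  set η : Q → G → G → k := fun q x z => ψ'' (π x) q x z with hη
  have ηeq : ∀ g q x z, η (π g * q) (g * x) (g * z) = η q x z := by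
    intro g q x z
    simp only [hη, map_mul]
    rw [ψ''eq]
  have ηh : ∀ q0 q1 x z, η q1 x z - η q0 x z = ψ'' q0 q1 x z := by
    intro q0 q1 x z
    simp only [hη]
    linear_combination -(ψ''h (π x) q0 q1 x z)
  -- step 10
  set P : Q → G → G → G → k := fun q x y z =>
    Φ q x y z - (η q y z - η q x z + η q x y) with hP
  have Pq : ∀ q0 q1 x y z, P q1 x y z = P q0 x y z := by
    intro q0 q1 x y z
    have h1 := ψd q0 q1 x y z
    have h2 := ηh q0 q1 y z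
    have h3 := ηh q0 q1 x z
    have h4 := ηh q0 q1 x y
    have h5 := (lamcoc q0 q1).coc x y z
    simp only [hψ''] at h2 h3 h4
    simp only [hP]
    linear_combination h1 - h2 + h3 - h4 + h5
  have Peq : ∀ g x y z, P 1 (g * x) (g * y) (g * z) = P 1 x y z := by
    intro g x y z
    rw [← Pq 1 (π g * 1)]
    simp only [hP]
    rw [Φeq, ηeq, ηeq, ηeq]
  obtain ⟨bG, hbG⟩ := hG (fun x y => P 1 1 x (x * y)) (by
    intro x y z
    have h1 := Peq x 1 y (y * z)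
    rw [mul_one] at h1
    rw [← h1]
    have e1 : x * (y * z) = x * y * z := by group
    rw [e1]
    have h2 := Φcoc 1 1 x (x * y) (x * y * z)
    simp only [hP]
    linear_combination h2)
  -- step 11
  refine ⟨fun n => bG n + η 1 1 n, fun n m hn hm => ?_⟩
  have h1 := hbG n m
  have h2 := ηeq n 1 1 m
  rw [hn, mul_one, mul_one] at h2
  have h3 : Φ 1 1 n (n * m) = c n m := by
    simp only [hΦ, hC, hs1]
    have e0 : ∀ x : G, (1 : G)⁻¹ * x = x := fun x => by group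
    rw [e0, e0, e0, ρid 1 (map_one π), ρid n hn, ρid (n * m) (by simp [hn, hm])]
    congr 1 <;> group
  simp only [hP] at h1
  rw [h3, h2] at h1
  simp only
  linear_combination h1

end Pool.Agent.H6.Ext
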