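import Pool.Agent.H6.Ext.Stair
import Pool.Agent.H6.Ext.Two

/-! A central element which acts by `-1` on the first cohomology kills the row `q = 1`. -/

namespace Pool.Agent.H6.Ext.Stair

variable {X Y k : Type*} [CommRing k]

/-- prism operator of the multiplication by `z` -/
def prism [Mul X] (z : X) (f : List X → k) : List X → k
  | [] => 0
  | a :: l => f (a :: (z * a) :: l.map (z * ·)) - prism z (fun m => f (a :: m)) l

section
variable [Mul X]

@[simp] lemma prism_nil (z : X) (f : List X → k) : prism z f [] = 0 := rfl

@[simp] lemma prism_cons (z : X) (f : List X → k) (a : X) (l : List X) :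
    prism z f (a :: l) = f (a :: (z * a) :: l.map (z * ·)) - prism z (fun m => f (a :: m)) l := rfl

lemma prism_sub (z : X) (f g : List X → k) (l : List X) :
    prism z (fun m => f m - g m) l = prism z f l - prism z g l := by
  induction l generalizing f g with
  | nil => simp
  | cons a l ih =>
    simp only [prism_cons]
    rw [ih]
    ring

lemma prism_mul (z : X) (c : k) (f : List X → k) (l : List X) :
    prism z (fun m => c * f m) l = c * prism z f l := by
  induction l generalizing f with
  | nil => simp
  | cons a l ih =>
    simp only [prism_cons]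
    rw [ih]
    ring

lemma prism_zero (z : X) (l : List X) : prism z (fun _ => (0 : k)) l = 0 := by
  have := prism_mul z (0 : k) (fun _ => (0 : k)) l
  simpa using this

lemma prism_congr (z : X) {f g : List X → k} (l : List X)
    (h : ∀ m, m.length = l.length + 1 → f m = g m) : prism z f l = prism z g l := by
  induction l generalizing f g with
  | nil => rfl
  | cons a l ih =>
    simp only [prism_cons]
    rw [h _ (by simp), ih (fun m hm => h _ (by simp only [List.length_cons]; omega))]

lemma prism_homotopy (z : X) (f : List X → k) (l : List X) :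
    delta (prism z f) l + prism z (delta f) l = f (l.map (z * ·)) - f l := by
  induction l generalizing f with
  | nil => simp
  | cons a l ih =>
    have h1 := ih (fun m => f (a :: m))
    simp only [delta_cons, prism_cons, List.map_cons]
    rw [delta_sub, prism_sub, delta_map]
    linear_combination h1

lemma prism_map (z c : X) (hcomm : ∀ a, z * (c * a) = c * (z * a)) (f : List X → k)
    (l : List X) : prism z f (l.map (c * ·)) = prism z (fun m => f (m.map (c * ·))) l := by
  induction l generalizing f with
  | nil => rfl
  | cons a l ih =>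
    simp only [List.map_cons, prism_cons]
    rw [ih]
    simp only [List.map_map, hcomm]
    have e : (fun b => z * b) ∘ (fun b => c * b) = (fun b => c * b) ∘ fun b => z * b :=
      funext hcomm
    rw [e]

lemma dv_prism (z : X) (F : List X → List Y → k) (u : List X) (x : List Y) :
    dv (fun u x => prism z (fun v => F v x) u) u x = prism z (fun v => dv F v x) u := by
  induction u generalizing F with
  | nil =>
    change delta (fun x => (0 : k)) x = 0
    exact delta_zero _
  | cons a u ih =>
    have h := ih (fun u => F (a :: u))
    change delta (fun x => F (a :: (z * a) :: u.map (z * ·)) x -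
      prism z (fun m => F (a :: m) x) u) x = _
    rw [delta_sub]
    simp only [prism_cons]
    have h' : delta (fun x => prism z (fun m => F (a :: m) x) u) x =
      prism z (fun v => dv F (a :: v) x) u := h
    rw [h']
    rfl

end

variable {G Q : Type*} [Group G] [Group Q]

theorem E2_one (π : G →* Q) (hπ : Function.Surjective π) (c0 : G)
    (hcen : ∀ q, π c0 * q = q * π c0)
    (hodd : ∀ h : G → ℚ, (∀ n m, π n = 1 → π m = 1 → h (n * m) = h n + h m) →
      ∀ n, π n = 1 → h (c0⁻¹ * n * c0) = - h n) (p : ℕ) : E2 π ℚ p 1 := by
  classical
  intro F Finv F1 ⟨F', F'inv, F2⟩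
  choose s hs using hπ
  set z := π c0 with hz
  set PF : List Q → List G → ℚ := fun u x => prism z (fun v => F v x) u with hPF
  set PF' : List Q → List G → ℚ := fun u x => prism z (fun v => F' v x) u with hPF'
  have hcomm : ∀ (g : G) (a : Q), z * (π g * a) = π g * (z * a) := fun g a => by
    rw [← mul_assoc, hcen (π g), mul_assoc]
  have Pinv : ∀ H : List Q → List G → ℚ, Inv2 π H →
      Inv2 π (fun u x => prism z (fun v => H v x) u) := by
    intro H hH g u x
    simp only
    rw [prism_map z (π g) (hcomm g)]
    congr 1
    funext v
    exact hH g v x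
  -- the cocycles
  set D : List Q → List G → ℚ := fun u x => F (u.map (z * ·)) x + F u x with hD
  have Dinv : Inv2 π D := by
    intro g u x
    simp only [hD]
    rw [Finv]
    congr 1
    have e : (u.map (π g * ·)).map (z * ·) = (u.map (z * ·)).map (π g * ·) := by
      simp only [List.map_map]
      congr 1
      funext a
      exact hcomm g a
    rw [e, Finv]
  have coc : ∀ u, u.length = p + 1 → Coc π (fun x y => F u [x, y]) := by
    intro u hu
    refine ⟨fun x y t => ?_, fun n hn x y => ?_⟩
    · have h := F1 u [x, y, t] hu rfl
      change F u [y, t] - (F u [x, t] - (F u [x, y] - 0)) = 0 at h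
      linear_combination h
    · have h := Finv n u [x, y]
      have e : u.map (π n * ·) = u := by simp [hn]
      rw [e] at h
      exact h
  have rel : ∀ u x y, F (u.map (z * ·)) [x, y] = F u [c0⁻¹ * x, c0⁻¹ * y] := by
    intro u x y
    have h := Finv c0 u [c0⁻¹ * x, c0⁻¹ * y]
    simp only [List.map_cons, List.map_nil, mul_inv_cancel_left] at h
    exact h
  have Dcoc : ∀ u, u.length = p + 1 → Coc π (fun x y => D u [x, y]) := by
    intro u hu
    have h1 := coc u hu
    have h2 := coc (u.map (z * ·)) (by simpa using hu)
    refine ⟨fun x y t => ?_, fun n hn x y => ?_⟩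
    · simp only [hD]
      linear_combination h1.coc x y t + h2.coc x y t
    · simp only [hD]
      have a1 := h1.inv n hn x y
      have a2 := h2.inv n hn x y
      rw [a1, a2]
  have D0 : ∀ u, u.length = p + 1 → ∀ n, π n = 1 → D u [1, n] = 0 := by
    intro u hu n hn
    have h1 := coc u hu
    have hn' : π (c0⁻¹ * n * c0) = 1 := by simp [hn]
    have b := h1.base hn' c0⁻¹ 1
    have e : c0⁻¹ * n * c0 * c0⁻¹ = c0⁻¹ * n := by group
    simp only [e, mul_one] at b
    have o := hodd (fun x => F u [1, x]) (fun a b ha _ => h1.add ha) n hn
    simp only [hD]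
    rw [rel, mul_one, b, o]
    ring
  set χ : List Q → List G → ℚ := fun u x =>
    if u.length = p + 1 ∧ x.length = 1 then D u [s (u.headD 1), x.headD 1] else 0 with hχ
  have χinv : Inv2 π χ := by
    intro g u x
    simp only [hχ, List.length_map]
    by_cases h : u.length = p + 1 ∧ x.length = 1
    · rw [if_pos h, if_pos h]
      obtain ⟨a, u', rfl⟩ : ∃ a u', u = a :: u' := by
        cases u with
        | nil => simp at h
        | cons a u' => exact ⟨a, u', rfl⟩
      obtain ⟨y, rfl⟩ := List.length_eq_one_iff.1 h.2
      simp only [List.map_cons, List.headD_cons]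
      have d := Dcoc (π g * a :: u'.map (π g * ·)) (by simpa using h.1)
      have d0 := D0 (π g * a :: u'.map (π g * ·)) (by simpa using h.1)
      have e : s (π g * a) = (s (π g * a) * (g * s a)⁻¹) * (g * s a) := by group
      have hn : π (s (π g * a) * (g * s a)⁻¹) = 1 := by simp [hs]
      have l := d.left d0 hn (g * s a) (g * y)
      rw [← e] at l
      rw [l]
      exact Dinv g (a :: u') [s a, y]
    · rw [if_neg h, if_neg h]
  have χd : ∀ u x, u.length = p + 1 → x.length = 2 → dv χ u x = D u x := by
    intro u x hu hx
    match x, hx with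
    | [a, b], _ =>
      have d := (Dcoc u hu).coc (s (u.headD 1)) a b
      change χ u [b] - (χ u [a] - 0) = _
      simp only [hχ]
      rw [if_pos ⟨hu, rfl⟩, if_pos ⟨hu, rfl⟩]
      simp only [List.headD_cons]
      linear_combination -d
  refine ⟨fun u x => (-1 / 2) * PF u x, fun u x => (1 / 2) * (χ u x - PF' u x), ?_, ?_, ?_, ?_⟩
  · intro g u x
    have h1 := Pinv F Finv g u x
    change PF _ _ = PF u x at h1
    change (-1 / 2) * PF _ _ = (-1 / 2) * PF u x
    rw [h1]
  · intro g u x
    have h1 := Pinv F' F'inv g u x
    change PF' _ _ = PF' u x at h1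
    change (1 / 2) * (χ _ _ - PF' _ _) = (1 / 2) * (χ u x - PF' u x)
    rw [χinv, h1]
  · intro u x hu hx
    have e : dv (fun u x => (-1 / 2) * PF u x) u x = (-1 / 2) * dv PF u x := delta_mul _ _ _
    rw [e, hPF, dv_prism, prism_congr z (g := fun _ => (0 : ℚ)) u
      (fun v hv => F1 v x (by omega) hx), prism_zero, mul_zero]
  · intro u x hu hx
    have e1 : dh (fun u x => (-1 / 2) * PF u x) u x = (-1 / 2) * dh PF u x := delta_mul _ _ _
    have e2 : dv (fun u x => (1 / 2) * (χ u x - PF' u x)) u x =
        (1 / 2) * (dv χ u x - dv PF' u x) := by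
      have : dv (fun u x => (1 / 2) * (χ u x - PF' u x)) u x =
        (1 / 2) * delta (fun x => χ u x - PF' u x) x := delta_mul _ _ _
      rw [this, delta_sub]
      rfl
    have e3 : dh PF u x + prism z (fun v => dh F v x) u = F (u.map (z * ·)) x - F u x :=
      prism_homotopy z (fun v => F v x) u
    have e4 : prism z (fun v => dh F v x) u = dv PF' u x := by
      rw [hPF', dv_prism]
      exact prism_congr z u (fun v hv => F2 v x (by omega) (by omega))
    have e5 := χd u x hu (by omega)
    rw [e1, e2, e5]
    rw [e4] at e3
    simp only [hD]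
    linear_combination (1 / 2) * e3

end Pool.Agent.H6.Ext.Stair
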