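import Pool.Agent.H6.Ext.Center

/-! Only the classes fixed by a central involution matter. -/

namespace Pool.Agent.H6.Ext.Stair

variable {G Q : Type*} [Group G] [Group Q]

/-- `H^p(Q; M) = 0`, where `M` is the part of `H^q(N; ℚ)` fixed by the central element `z` -/
def E2even (π : G →* Q) (z : Q) (p q : ℕ) : Prop :=
  ∀ F : List Q → List G → ℚ, Inv2 π F → (∀ u x, F (u.map (z * ·)) x = F u x) →
    (∀ u x, u.length = p + 1 → x.length = q + 2 → dv F u x = 0) →
    (∃ F' : List Q → List G → ℚ, Inv2 π F' ∧
      ∀ u x, u.length = p + 2 → x.length = q + 1 → dh F u x = dv F' u x) →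
    ∃ l c : List Q → List G → ℚ, Inv2 π l ∧ Inv2 π c ∧
      (∀ u x, u.length = p → x.length = q + 2 → dv l u x = 0) ∧
      ∀ u x, u.length = p + 1 → x.length = q + 1 → F u x = dh l u x + dv c u x

theorem E2_of_even (π : G →* Q) (z : Q)
    (hcen : ∀ q, z * q = q * z) (hz2 : z * z = 1) (p q : ℕ) (h : E2even π z p q) :
    E2 π ℚ p q := by
  intro F Finv F1 ⟨F', F'inv, F2⟩
  set PF : List Q → List G → ℚ := fun u x => prism z (fun v => F v x) u with hPF
  set PF' : List Q → List G → ℚ := fun u x => prism z (fun v => F' v x) u with hPF'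
  have hcomm : ∀ (g : G) (a : Q), z * (π g * a) = π g * (z * a) := fun g a => by
    rw [← mul_assoc, hcen (π g), mul_assoc]
  have Pinv : ∀ H : List Q → List G → ℚ, Inv2 π H →
      Inv2 π (fun u x => prism z (fun v => H v x) u) := by
    intro H hH g u x
    simp only
    rw [prism_map z (π g) (hcomm g)]
    congr 1
    funext v
    exact hH g v x
  have Dinv : ∀ H : List Q → List G → ℚ, Inv2 π H →
      Inv2 π (fun u x => (1 / 2) * (H (u.map (z * ·)) x + H u x)) := by
    intro H hH g u x
    simp only
    rw [hH]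
    have e : (u.map (π g * ·)).map (z * ·) = (u.map (z * ·)).map (π g * ·) := by
      simp only [List.map_map]
      congr 1
      funext a
      exact hcomm g a
    rw [e, hH]
  have zz : ∀ u : List Q, (u.map (z * ·)).map (z * ·) = u := by
    intro u
    simp only [List.map_map]
    have e : (fun a => z * a) ∘ (fun a => z * a) = id := by
      funext a
      simp [← mul_assoc, hz2]
    rw [e, List.map_id]
  have dvD : ∀ (H : List Q → List G → ℚ) u x,
      dv (fun u x => (1 / 2) * (H (u.map (z * ·)) x + H u x)) u x =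
        (1 / 2) * (dv H (u.map (z * ·)) x + dv H u x) := by
    intro H u x
    have e1 : dv (fun u x => (1 / 2) * (H (u.map (z * ·)) x + H u x)) u x =
      (1 / 2) * delta (fun x => H (u.map (z * ·)) x + H u x) x := delta_mul _ _ _
    have e2 := delta_sub (fun x => H (u.map (z * ·)) x + H u x) (H u) x
    simp only [add_sub_cancel_right] at e2
    rw [e1]
    change _ = (1 / 2) * (delta (H (u.map (z * ·))) x + delta (H u) x)
    linear_combination (-1 / 2) * e2
  have dhD : ∀ (H : List Q → List G → ℚ) u x,
      dh (fun u x => (1 / 2) * (H (u.map (z * ·)) x + H u x)) u x =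
        (1 / 2) * (dh H (u.map (z * ·)) x + dh H u x) := by
    intro H u x
    have e1 : dh (fun u x => (1 / 2) * (H (u.map (z * ·)) x + H u x)) u x =
      (1 / 2) * delta (fun u => H (u.map (z * ·)) x + H u x) u := delta_mul _ _ _
    have e2 := delta_sub (fun u => H (u.map (z * ·)) x + H u x) (fun u => H u x) u
    simp only [add_sub_cancel_right] at e2
    have e3 : dh H (u.map (z * ·)) x = delta (fun u => H (u.map (z * ·)) x) u :=
      delta_map _ _ _
    rw [e1, e3]
    change _ = (1 / 2) * (delta (fun u => H (u.map (z * ·)) x) u + delta (fun u => H u x) u)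
    linear_combination (-1 / 2) * e2
  obtain ⟨l, c, linv, cinv, l1, hcl⟩ := h (fun u x => (1 / 2) * (F (u.map (z * ·)) x + F u x))
    (Dinv F Finv) (fun u x => by
      rw [zz]
      ring)
    (fun u x hu hx => by
      rw [dvD, F1 _ x (by simpa using hu) hx, F1 u x hu hx]
      ring)
    ⟨fun u x => (1 / 2) * (F' (u.map (z * ·)) x + F' u x), Dinv F' F'inv, fun u x hu hx => by
      rw [dvD, dhD, F2 _ x (by simpa using hu) hx, F2 u x hu hx]⟩
  refine ⟨fun u x => l u x - (1 / 2) * PF u x, fun u x => c u x - (1 / 2) * PF' u x,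
    ?_, ?_, ?_, ?_⟩
  · intro g u x
    have h1 := Pinv F Finv g u x
    change PF _ _ = PF u x at h1
    change l _ _ - (1 / 2) * PF _ _ = l u x - (1 / 2) * PF u x
    rw [h1, linv]
  · intro g u x
    have h1 := Pinv F' F'inv g u x
    change PF' _ _ = PF' u x at h1
    change c _ _ - (1 / 2) * PF' _ _ = c u x - (1 / 2) * PF' u x
    rw [h1, cinv]
  · intro u x hu hx
    have e1 : dv (fun u x => l u x - (1 / 2) * PF u x) u x =
        dv l u x - delta (fun x => (1 / 2) * PF u x) x := delta_sub _ _ _
    have e2 : delta (fun x => (1 / 2) * PF u x) x = (1 / 2) * dv PF u x := delta_mul _ _ _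
    rw [e1, e2, l1 u x hu hx, hPF, dv_prism, prism_congr z (g := fun _ => (0 : ℚ)) u
      (fun v hv => F1 v x (by omega) hx), prism_zero, mul_zero, sub_zero]
  · intro u x hu hx
    have a1 : dh (fun u x => l u x - (1 / 2) * PF u x) u x =
        dh l u x - delta (fun u => (1 / 2) * PF u x) u := delta_sub _ _ _
    have a2 : delta (fun u => (1 / 2) * PF u x) u = (1 / 2) * dh PF u x := delta_mul _ _ _
    have b1 : dv (fun u x => c u x - (1 / 2) * PF' u x) u x =
        dv c u x - delta (fun x => (1 / 2) * PF' u x) x := delta_sub _ _ _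
    have b2 : delta (fun x => (1 / 2) * PF' u x) x = (1 / 2) * dv PF' u x := delta_mul _ _ _
    have e3 : dh PF u x + prism z (fun v => dh F v x) u = F (u.map (z * ·)) x - F u x :=
      prism_homotopy z (fun v => F v x) u
    have e4 : prism z (fun v => dh F v x) u = dv PF' u x := by
      rw [hPF', dv_prism]
      exact prism_congr z u (fun v hv => F2 v x (by omega) (by omega))
    have e5 := hcl u x hu hx
    rw [a1, a2, b1, b2]
    rw [e4] at e3
    linear_combination e5 + (1 / 2) * e3

end Pool.Agent.H6.Ext.Stair
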