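import Pool.Agent.H6.Ext.Even

/-! Finite-dimensional coefficients. -/

namespace Pool.Agent.H6.Ext.Stair

section vec

variable {X V : Type*} [AddCommGroup V]

/-- The coboundary of a cochain with values in `V`. -/
def deltaV (f : List X → V) : List X → V
  | [] => 0
  | a :: l => f l - deltaV (fun m => f (a :: m)) l

lemma deltaV_congr {f g : List X → V} {n : ℕ} (h : ∀ m, m.length = n → f m = g m) (l : List X)
    (hl : l.length = n + 1) : deltaV f l = deltaV g l := by
  induction l generalizing f g n with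
  | nil => rfl
  | cons a l ih =>
    simp only [List.length_cons, Nat.add_right_cancel_iff] at hl
    simp only [deltaV]
    rw [h l hl]
    cases l with
    | nil => rfl
    | cons b l =>
      simp only [List.length_cons] at hl
      rw [ih (n := l.length) (fun m hm => h _ (by simp only [List.length_cons]; omega)) rfl]

lemma deltaV_map {W : Type*} [AddCommGroup W] (L : V →+ W) (f : List X → V) (l : List X) :
    L (deltaV f l) = deltaV (fun m => L (f m)) l := by
  induction l generalizing f with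
  | nil => exact map_zero L
  | cons a l ih =>
    simp only [deltaV, map_sub]
    rw [ih]

lemma deltaV_apply {Y : Type*} (F : List X → List Y → ℚ) (u : List X) (x : List Y) :
    deltaV F u x = dh F u x := by
  induction u generalizing F with
  | nil => rfl
  | cons a u ih =>
    have h := ih (fun m => F (a :: m))
    change F u x - deltaV (fun m => F (a :: m)) u x = F u x - dh (fun m => F (a :: m)) u x
    rw [h]

end vec

/-- an equivariant cochain with values in `V`, where `g` acts on `V` by `a g` -/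
def EquivV {Q V : Type} [Group Q] (a : Q → V → V) (f : List Q → V) : Prop :=
  ∀ g l, f (l.map (g * ·)) = a g (f l)

/-- `H^p(Q; V) = 0`, by homogeneous cochains, where `g` acts on `V` by `a g` -/
def VanishV {Q V : Type} [Group Q] [AddCommGroup V] (a : Q → V → V) (p : ℕ) : Prop :=
  ∀ f : List Q → V, EquivV a f → (∀ l, l.length = p + 2 → deltaV f l = 0) →
    ∃ t : List Q → V, EquivV a t ∧ ∀ l, l.length = p + 1 → f l = deltaV t l

variable {G Q : Type} [Group G] [Group Q]

/-- `φ` is a cocycle of degree `q`, invariant under the kernel of `π` and under `c0` -/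
def IsZ (π : G →* Q) (c0 : G) (q : ℕ) (φ : List G → ℚ) : Prop :=
  (∀ n, π n = 1 → ∀ x, φ (x.map (n * ·)) = φ x) ∧
    (∀ x, φ (x.map (c0 * ·)) = φ x) ∧ ∀ x, x.length = q + 2 → delta φ x = 0

lemma isZ_zero (π : G →* Q) (c0 : G) (q : ℕ) : IsZ π c0 q 0 :=
  ⟨fun _ _ _ => rfl, fun _ => rfl, fun x _ => delta_zero x⟩

lemma isZ_add (π : G →* Q) (c0 : G) (q : ℕ) {φ ψ : List G → ℚ} (h : IsZ π c0 q φ)
    (k : IsZ π c0 q ψ) : IsZ π c0 q (φ + ψ) := by
  obtain ⟨h1, h2, h3⟩ := h
  obtain ⟨k1, k2, k3⟩ := k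
  refine ⟨fun n hn x => ?_, fun x => ?_, fun x hx => ?_⟩
  · simp only [Pi.add_apply]
    rw [h1 n hn, k1 n hn]
  · simp only [Pi.add_apply]
    rw [h2, k2]
  · have := delta_sub (φ + ψ) ψ x
    simp only [Pi.add_apply, add_sub_cancel_right] at this
    change delta φ x = _ at this
    rw [h3 x hx, k3 x hx, sub_zero] at this
    exact this.symm

lemma isZ_smul (π : G →* Q) (c0 : G) (q : ℕ) (c : ℚ) {φ : List G → ℚ} (h : IsZ π c0 q φ) :
    IsZ π c0 q (c • φ) := by
  obtain ⟨h1, h2, h3⟩ := h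
  refine ⟨fun n hn x => ?_, fun x => ?_, fun x hx => ?_⟩
  · simp only [Pi.smul_apply]
    rw [h1 n hn]
  · simp only [Pi.smul_apply]
    rw [h2]
  · have := delta_mul c φ x
    rw [h3 x hx, mul_zero] at this
    exact this

/-- cocycles of degree `q`, invariant under the kernel of `π` and under `c0` -/
def Zp (π : G →* Q) (c0 : G) (q : ℕ) : Submodule ℚ (List G → ℚ) where
  carrier := {φ | IsZ π c0 q φ}
  zero_mem' := isZ_zero π c0 q
  add_mem' := isZ_add π c0 q
  smul_mem' := isZ_smul π c0 q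

/-- in degree `q` the function `φ` is the coboundary of a cochain invariant under the kernel -/
def IsB (π : G →* Q) (q : ℕ) (φ : List G → ℚ) : Prop :=
  ∃ c : List G → ℚ, (∀ n, π n = 1 → ∀ x, c (x.map (n * ·)) = c x) ∧
    ∀ x, x.length = q + 1 → φ x = delta c x

lemma isB_zero (π : G →* Q) (q : ℕ) : IsB π q 0 :=
  ⟨fun _ => 0, fun _ _ _ => rfl, fun x _ => (delta_zero x).symm⟩

lemma isB_add (π : G →* Q) (q : ℕ) {φ ψ : List G → ℚ} (h : IsB π q φ) (k : IsB π q ψ) :
    IsB π q (φ + ψ) := by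
  obtain ⟨c, h1, h2⟩ := h
  obtain ⟨d, k1, k2⟩ := k
  refine ⟨fun x => c x + d x, fun n hn x => ?_, fun x hx => ?_⟩
  · simp only
    rw [h1 n hn, k1 n hn]
  · have := delta_sub (fun x => c x + d x) d x
    simp only [add_sub_cancel_right] at this
    simp only [Pi.add_apply]
    change delta c x = _ at this
    rw [h2 x hx, k2 x hx, this]
    ring

lemma isB_smul (π : G →* Q) (q : ℕ) (r : ℚ) {φ : List G → ℚ} (h : IsB π q φ) :
    IsB π q (r • φ) := by
  obtain ⟨c, h1, h2⟩ := h
  refine ⟨fun x => r * c x, fun n hn x => ?_, fun x hx => ?_⟩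
  · simp only
    rw [h1 n hn]
  · simp only [Pi.smul_apply, smul_eq_mul]
    rw [delta_mul, h2 x hx]

/-- functions which in degree `q` are coboundaries of a cochain invariant under the kernel -/
def Bp (π : G →* Q) (q : ℕ) : Submodule ℚ (List G → ℚ) where
  carrier := {φ | IsB π q φ}
  zero_mem' := isB_zero π q
  add_mem' := isB_add π q
  smul_mem' := isB_smul π q

/-- functions modulo coboundaries -/
def W (π : G →* Q) (q : ℕ) : Type := (List G → ℚ) ⧸ Bp π q

instance (π : G →* Q) (q : ℕ) : AddCommGroup (W π q) :=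
  Submodule.Quotient.addCommGroup (Bp π q)

instance (π : G →* Q) (q : ℕ) : Module ℚ (W π q) :=
  Submodule.Quotient.module (Bp π q)

/-- the class of a function -/
def cls (π : G →* Q) (q : ℕ) : (List G → ℚ) →ₗ[ℚ] W π q := (Bp π q).mkQ

lemma cls_surj (π : G →* Q) (q : ℕ) (v : W π q) : ∃ φ, cls π q φ = v :=
  (Bp π q).mkQ_surjective v

lemma cls_eq (π : G →* Q) (q : ℕ) {φ ψ : List G → ℚ} :
    cls π q φ = cls π q ψ ↔ IsB π q (φ - ψ) :=
  Submodule.Quotient.eq (Bp π q)

lemma cls_eq_zero (π : G →* Q) (q : ℕ) {φ : List G → ℚ} : cls π q φ = 0 ↔ IsB π q φ :=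
  Submodule.Quotient.mk_eq_zero (Bp π q)

/-- the part of `H^q(N; ℚ)` fixed by `c0` -/
def Mp (π : G →* Q) (c0 : G) (q : ℕ) : Submodule ℚ (W π q) := (Zp π c0 q).map (cls π q)

/-- translation of functions -/
def T (g : G) : (List G → ℚ) →ₗ[ℚ] (List G → ℚ) :=
  LinearMap.funLeft ℚ ℚ fun x : List G => x.map (g⁻¹ * ·)

lemma T_apply (g : G) (φ : List G → ℚ) (x : List G) : T g φ x = φ (x.map (g⁻¹ * ·)) := rfl

lemma T_mul (g h : G) (φ : List G → ℚ) : T (g * h) φ = T g (T h φ) := by
  funext x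
  simp only [T_apply, List.map_map]
  congr 1
  congr 1
  funext a
  simp [mul_assoc]

lemma T_one (φ : List G → ℚ) : T 1 φ = φ := by
  funext x
  simp [T_apply]

lemma T_Zp (π : G →* Q) (c0 : G) (hcen : ∀ q, π c0 * q = q * π c0) (q : ℕ) (g : G)
    {φ : List G → ℚ} (h : φ ∈ Zp π c0 q) : T g φ ∈ Zp π c0 q := by
  obtain ⟨h1, h2, h3⟩ := h
  refine ⟨fun n hn x => ?_, fun x => ?_, fun x hx => ?_⟩
  · simp only [T_apply]
    have e : (x.map (n * ·)).map (g⁻¹ * ·) = (x.map (g⁻¹ * ·)).map ((g⁻¹ * n * g) * ·) := by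
      simp only [List.map_map]
      congr 1
      funext a
      simp [mul_assoc]
    rw [e, h1 _ (by simp [hn])]
  · simp only [T_apply]
    have e : (x.map (c0 * ·)).map (g⁻¹ * ·) =
        ((x.map (g⁻¹ * ·)).map (c0 * ·)).map ((g⁻¹ * c0 * g * c0⁻¹) * ·) := by
      simp only [List.map_map]
      congr 1
      funext a
      simp [mul_assoc]
    rw [e, h1 _ (by simp [mul_assoc, hcen]), h2]
  · have := delta_map (g⁻¹ * ·) φ x
    change _ = delta (T g φ) x at this
    rw [← this]
    exact h3 _ (by simpa using hx)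

lemma T_Bp (π : G →* Q) (q : ℕ) (g : G) {φ : List G → ℚ} (h : φ ∈ Bp π q) :
    T g φ ∈ Bp π q := by
  obtain ⟨c, h1, h2⟩ := h
  refine ⟨T g c, fun n hn x => ?_, fun x hx => ?_⟩
  · simp only [T_apply]
    have e : (x.map (n * ·)).map (g⁻¹ * ·) = (x.map (g⁻¹ * ·)).map ((g⁻¹ * n * g) * ·) := by
      simp only [List.map_map]
      congr 1
      funext a
      simp [mul_assoc]
    rw [e, h1 _ (by simp [hn])]
  · have := delta_map (g⁻¹ * ·) c x
    change _ = delta (T g c) x at this
    rw [← this, T_apply, h2 _ (by simpa using hx)]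

lemma T_eq (π : G →* Q) (c0 : G) (q : ℕ) {g h : G} (e : π g = π h) {φ : List G → ℚ}
    (hφ : φ ∈ Zp π c0 q) : T g φ = T h φ := by
  have e1 : g = h * (h⁻¹ * g) := by group
  rw [e1, T_mul]
  congr 1
  funext x
  rw [T_apply]
  exact hφ.1 _ (by simp [e]) x

/-- action on functions modulo coboundaries -/
def TW (π : G →* Q) (q : ℕ) (g : G) : W π q →ₗ[ℚ] W π q :=
  (Bp π q).mapQ (Bp π q) (T g) fun _ h => T_Bp π q g h

lemma TW_mk (π : G →* Q) (q : ℕ) (g : G) (φ : List G → ℚ) :
    TW π q g (cls π q φ) = cls π q (T g φ) := rfl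

lemma TW_mem (π : G →* Q) (c0 : G) (hcen : ∀ q, π c0 * q = q * π c0) (q : ℕ) (g : G)
    (v : W π q) (hv : v ∈ Mp π c0 q) : TW π q g v ∈ Mp π c0 q := by
  obtain ⟨φ, hφ, rfl⟩ := hv
  exact ⟨T g φ, T_Zp π c0 hcen q g hφ, rfl⟩

lemma TW_eq (π : G →* Q) (c0 : G) (q : ℕ) {g h : G} (e : π g = π h)
    (v : W π q) (hv : v ∈ Mp π c0 q) : TW π q g v = TW π q h v := by
  obtain ⟨φ, hφ, rfl⟩ := hv
  rw [TW_mk, TW_mk, T_eq π c0 q e hφ]

lemma TW_mul (π : G →* Q) (q : ℕ) (g h : G) (v : W π q) :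
    TW π q (g * h) v = TW π q g (TW π q h v) := by
  obtain ⟨φ, rfl⟩ := cls_surj π q v
  rw [TW_mk, TW_mk, TW_mk, T_mul]

lemma TW_one (π : G →* Q) (q : ℕ) (v : W π q) : TW π q 1 v = v := by
  obtain ⟨φ, rfl⟩ := cls_surj π q v
  rw [TW_mk, T_one]

/-- the classes in `Mp` are the classes fixed by `c0` -/
lemma mem_Mp (π : G →* Q) (c0 : G) (hz2 : π c0 * π c0 = 1) (q : ℕ)
    (v : W π q) (hv : v ∈ Mp π 1 q) :
    v ∈ Mp π c0 q ↔ TW π q c0 v = v := by
  constructor
  · rintro ⟨φ, hφ, rfl⟩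
    rw [TW_mk]
    congr 1
    funext x
    rw [T_apply, ← hφ.2.1 (x.map (c0⁻¹ * ·))]
    congr 1
    simp [Function.comp_def]
  · intro h
    obtain ⟨φ, ⟨h1, _, h3⟩, rfl⟩ := hv
    refine ⟨(1 / 2 : ℚ) • (φ + T c0 φ), ⟨?_, ?_, ?_⟩, ?_⟩
    · intro n hn x
      simp only [Pi.smul_apply, Pi.add_apply, T_apply]
      have e : (x.map (n * ·)).map (c0⁻¹ * ·) =
          (x.map (c0⁻¹ * ·)).map ((c0⁻¹ * n * c0) * ·) := by
        simp only [List.map_map]
        congr 1
        funext a
        simp [mul_assoc]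
      rw [e, h1 n hn, h1 _ (by simp [hn])]
    · intro x
      simp only [Pi.smul_apply, Pi.add_apply, T_apply]
      have e1 : (x.map (c0 * ·)).map (c0⁻¹ * ·) = x := by
        simp [Function.comp_def]
      have e2 : x.map (c0 * ·) = (x.map (c0⁻¹ * ·)).map ((c0 * c0) * ·) := by
        simp only [List.map_map]
        congr 1
        funext a
        simp [mul_assoc]
      rw [e1, e2, h1 _ (by rw [map_mul, hz2]), add_comm]
    · intro x hx
      have a1 := delta_mul (1 / 2 : ℚ) (φ + T c0 φ) x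
      have a2 := delta_sub (φ + T c0 φ) (T c0 φ) x
      simp only [Pi.add_apply, add_sub_cancel_right] at a2
      change delta φ x = delta (φ + T c0 φ) x - delta (T c0 φ) x at a2
      have a3 := delta_map (c0⁻¹ * ·) φ x
      change _ = delta (T c0 φ) x at a3
      rw [h3 x hx, ← a3, h3 _ (by simpa using hx), sub_zero] at a2
      change delta (fun m => (1 / 2 : ℚ) * (φ + T c0 φ) m) x = 0
      rw [a1, ← a2, mul_zero]
    · rw [map_smul, map_add, ← TW_mk π q c0 φ, h, ← two_smul ℚ, smul_smul]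
      norm_num

/-- the action of `g` on `Mp` -/
def act (π : G →* Q) (c0 : G) (hcen : ∀ q, π c0 * q = q * π c0) (q : ℕ) (g : G) :
    Mp π c0 q →ₗ[ℚ] Mp π c0 q :=
  (TW π q g).restrict (TW_mem π c0 hcen q g)

lemma act_one (π : G →* Q) (c0 : G) (hcen : ∀ q, π c0 * q = q * π c0) (q : ℕ)
    (s : Q → G) (hs : ∀ q, π (s q) = q) : act π c0 hcen q (s 1) = 1 := by
  ext v
  simp only [act, LinearMap.restrict_apply, Module.End.one_apply]
  rw [TW_eq π c0 q (h := 1) (by rw [hs, map_one]) v v.2, TW_one]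

lemma act_mul (π : G →* Q) (c0 : G) (hcen : ∀ q, π c0 * q = q * π c0) (q : ℕ)
    (s : Q → G) (hs : ∀ q, π (s q) = q) (a b : Q) :
    act π c0 hcen q (s (a * b)) = act π c0 hcen q (s a) * act π c0 hcen q (s b) := by
  ext v
  simp only [act, LinearMap.restrict_apply, Module.End.mul_apply]
  rw [TW_eq π c0 q (h := s a * s b) (by rw [hs, map_mul, hs, hs]) v v.2, TW_mul]

/-- the representation of `Q` on `Mp` -/
noncomputable def rep (π : G →* Q) (c0 : G) (hcen : ∀ q, π c0 * q = q * π c0) (q : ℕ)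
    (s : Q → G) (hs : ∀ q, π (s q) = q) : Representation ℚ Q (Mp π c0 q) where
  toFun a := act π c0 hcen q (s a)
  map_one' := act_one π c0 hcen q s hs
  map_mul' := act_mul π c0 hcen q s hs

/-- the action of `g` on `Mp`, as a function -/
def actP (π : G →* Q) (c0 : G) (hcen : ∀ q, π c0 * q = q * π c0) (q : ℕ) (g : G)
    (v : Mp π c0 q) : Mp π c0 q := ⟨TW π q g v.1, TW_mem π c0 hcen q g v.1 v.2⟩

lemma rep_coe (π : G →* Q) (c0 : G) (hcen : ∀ q, π c0 * q = q * π c0) (q : ℕ)
    (s : Q → G) (a : Q) (v : Mp π c0 q) :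
    (actP π c0 hcen q (s a) v : W π q) = TW π q (s a) v := rfl

/-- spreading a choice of functions over the orbits -/
def spread (s : Q → G) (γ : List Q → List G → ℚ) : List Q → List G → ℚ
  | [], _ => 0
  | a :: u, x => γ ((a :: u).map (a⁻¹ * ·)) (x.map ((s a)⁻¹ * ·))

lemma spread_inv (π : G →* Q) (s : Q → G) (hs : ∀ q, π (s q) = q)
    (γ : List Q → List G → ℚ) (hγ : ∀ u n, π n = 1 → ∀ x, γ u (x.map (n * ·)) = γ u x) :
    Inv2 π (spread s γ) := by
  intro g u x
  cases u with
  | nil => rfl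
  | cons a u =>
    obtain ⟨n, hn, hx⟩ := shift π s hs g a
    simp only [List.map_cons, spread]
    have e1 : (x.map (g * ·)).map ((s (π g * a))⁻¹ * ·) = (x.map ((s a)⁻¹ * ·)).map (n * ·) := by
      simp only [List.map_map]
      congr 1
      funext y
      exact hx y
    have e2 : (u.map (π g * ·)).map ((π g * a)⁻¹ * ·) = u.map (a⁻¹ * ·) := by
      simp only [List.map_map]
      congr 1
      funext y
      simp [mul_assoc]
    rw [e1, hγ _ n hn, e2]
    simp

lemma Inv2.key {π : G →* Q} {H : List Q → List G → ℚ} (hH : Inv2 π H) (g : G) (u : List Q) :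
    H (u.map (π g * ·)) = T g (H u) := by
  funext x
  rw [T_apply]
  have := hH g u (x.map (g⁻¹ * ·))
  rw [← this]
  congr 1
  simp

lemma Inv2.ker {π : G →* Q} {H : List Q → List G → ℚ} (hH : Inv2 π H) (u : List Q) (n : G)
    (hn : π n = 1) (x : List G) : H u (x.map (n * ·)) = H u x := by
  have := hH n u x
  simpa [hn] using this

theorem E2zero_of_rep (π : G →* Q) (hcen : ∀ q, π 1 * q = q * π 1) (q : ℕ)
    (s : Q → G) (hs : ∀ q, π (s q) = q)
    (hinv : ∀ v : Mp π 1 q, (∀ a, actP π 1 hcen q (s a) v = v) → v = 0) : E2zero π ℚ q := by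
  intro F Finv F1 ⟨F', F'inv, F2⟩
  have FZ : F [1] ∈ Zp π 1 q :=
    ⟨Finv.ker [1], fun x => by simp, fun x hx => F1 [1] x rfl hx⟩
  have h0 := hinv ⟨cls π q (F [1]), ⟨F [1], FZ, rfl⟩⟩ (by
    intro a
    apply Subtype.ext
    rw [rep_coe]
    change cls π q (T (s a) (F [1])) = cls π q (F [1])
    rw [← Finv.key (s a) [1]]
    simp only [List.map_cons, List.map_nil, mul_one, hs]
    rw [cls_eq]
    refine ⟨F' [1, a], F'inv.ker [1, a], fun x hx => ?_⟩
    have h := F2 [1, a] x rfl hx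
    change F [a] x - (F [1] x - 0) = delta (F' [1, a]) x at h
    rw [sub_zero] at h
    exact h)
  have h1 : cls π q (F [1]) = 0 := congrArg Subtype.val h0
  rw [cls_eq_zero] at h1
  obtain ⟨c, c1, c2⟩ := h1
  refine ⟨spread s (fun _ => c), spread_inv π s hs _ fun _ => c1, fun u x hu hx => ?_⟩
  obtain ⟨a, rfl⟩ := List.length_eq_one_iff.1 hu
  have h2 : dv (spread s (fun _ => c)) [a] x = delta (fun m => c (m.map ((s a)⁻¹ * ·))) x := rfl
  rw [h2, ← delta_map, ← c2 _ (by simpa using hx)]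
  have := Finv (s a) [1] (x.map ((s a)⁻¹ * ·))
  rw [← this, hs]
  congr 1 <;> simp [Function.comp_def]

theorem E2even_of_rep (π : G →* Q) (c0 : G)
    (hcen : ∀ q, π c0 * q = q * π c0) (hz2 : π c0 * π c0 = 1) (p q : ℕ) (hp : 1 ≤ p)
    (s : Q → G) (hs : ∀ q, π (s q) = q)
    (hvan : VanishV (fun a v => actP π c0 hcen q (s a) v) p) : E2even π (π c0) p q := by
  classical
  intro F Finv Feven F1 ⟨F', F'inv, F2⟩
  have FZ : ∀ u, u.length = p + 1 → F u ∈ Zp π c0 q := by
    intro u hu
    refine ⟨Finv.ker u, fun x => ?_, fun x hx => F1 u x hu hx⟩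
    have h1 := Finv c0 (u.map (π c0 * ·)) x
    have e : (u.map (π c0 * ·)).map (π c0 * ·) = u := by
      simp only [List.map_map]
      have e : (fun a => π c0 * a) ∘ (fun a => π c0 * a) = id := by
        funext a
        simp [← mul_assoc, hz2]
      rw [e, List.map_id]
    rw [e, Feven] at h1
    exact h1
  let Φ : List Q → Mp π c0 q := fun u =>
    if h : u.length = p + 1 then ⟨cls π q (F u), ⟨F u, FZ u h, rfl⟩⟩ else 0
  have Φ1 : ∀ u, u.length = p + 1 → (Φ u : W π q) = cls π q (F u) := by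
    intro u hu
    simp only [Φ, dif_pos hu]
  obtain ⟨Λ, Λinv, Λd⟩ := hvan Φ (by
    intro g u
    apply Subtype.ext
    rw [rep_coe]
    by_cases hu : u.length = p + 1
    · rw [Φ1 _ (by simpa using hu), Φ1 u hu, TW_mk, ← Finv.key (s g) u, hs]
    · simp only [Φ, List.length_map, dif_neg hu]
      simp) (by
    intro l hl
    apply Subtype.ext
    have h1 := deltaV_map (Mp π c0 q).subtype.toAddMonoidHom Φ l
    change ((deltaV Φ l : Mp π c0 q) : W π q) =
      deltaV (fun m => (Φ m : W π q)) l at h1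
    rw [h1, deltaV_congr (g := fun m => cls π q (F m)) (n := p + 1) Φ1 l hl]
    have h2 := deltaV_map (cls π q).toAddMonoidHom F l
    change cls π q (deltaV F l) = deltaV (fun m => cls π q (F m)) l at h2
    rw [← h2]
    change cls π q (deltaV F l) = 0
    rw [cls_eq_zero]
    refine ⟨F' l, F'inv.ker l, fun x hx => ?_⟩
    rw [deltaV_apply]
    exact F2 l x hl hx)
  have hrep : ∀ v : Mp π c0 q, ∃ φ ∈ Zp π c0 q, cls π q φ = v := fun v => v.2
  choose lam hlam1 hlam2 using hrep
  set l : List Q → List G → ℚ := spread s (fun u => lam (Λ u)) with hl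
  have linv : Inv2 π l := spread_inv π s hs _ fun u => (hlam1 (Λ u)).1
  have lcl : ∀ u, 1 ≤ u.length → cls π q (l u) = (Λ u : W π q) := by
    intro u hu
    cases u with
    | nil => simp at hu
    | cons a u =>
      have e : l (a :: u) = T (s a) (lam (Λ ((a :: u).map (a⁻¹ * ·)))) := rfl
      rw [e, ← TW_mk, hlam2, ← rep_coe π c0 hcen q s]
      have hΛ := Λinv a ((a :: u).map (a⁻¹ * ·))
      simp only at hΛ
      rw [← hΛ]
      congr 2
      simp
  have hB : ∀ u, ∃ c : List G → ℚ, (∀ n, π n = 1 → ∀ x, c (x.map (n * ·)) = c x) ∧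
      (u.length = p + 1 → ∀ x, x.length = q + 1 → F u x - dh l u x = delta c x) := by
    intro u
    by_cases hu : u.length = p + 1
    · have h1 : cls π q (F u) = cls π q (deltaV l u) := by
        rw [← Φ1 u hu, Λd u hu]
        have h1 := deltaV_map (Mp π c0 q).subtype.toAddMonoidHom Λ u
        change ((deltaV Λ u : Mp π c0 q) : W π q) =
          deltaV (fun m => (Λ m : W π q)) u at h1
        rw [h1]
        have h2 := deltaV_map (cls π q).toAddMonoidHom l u
        change cls π q (deltaV l u) = deltaV (fun m => cls π q (l m)) u at h2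
        rw [h2]
        exact deltaV_congr (n := p) (fun m hm => (lcl m (by omega)).symm) u hu
      rw [cls_eq] at h1
      obtain ⟨c, c1, c2⟩ := h1
      refine ⟨c, c1, fun _ x hx => ?_⟩
      have := c2 x hx
      rw [Pi.sub_apply, deltaV_apply] at this
      exact this
    · exact ⟨fun _ => 0, fun _ _ _ => rfl, fun h => absurd h hu⟩
  choose gam hg1 hg2 using hB
  refine ⟨l, spread s gam, linv, spread_inv π s hs gam hg1, ?_, ?_⟩
  · intro u x hu hx
    cases u with
    | nil => simp at hu; omega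
    | cons a u =>
      change delta (T (s a) (lam (Λ ((a :: u).map (a⁻¹ * ·))))) x = 0
      exact (T_Zp π c0 hcen q (s a) (hlam1 _)).2.2 x hx
  · intro u x hu hx
    cases u with
    | nil => simp at hu
    | cons a u =>
      have h1 := hg2 ((a :: u).map (a⁻¹ * ·)) (by simpa using hu) (x.map ((s a)⁻¹ * ·))
        (by simpa using hx)
      rw [delta_map] at h1
      have h2 : dv (spread s gam) (a :: u) x =
        delta (fun m => gam ((a :: u).map (a⁻¹ * ·)) (m.map ((s a)⁻¹ * ·))) x := rfl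
      have h3 : ∀ H : List Q → List G → ℚ, Inv2 π H →
          H ((a :: u).map (a⁻¹ * ·)) (x.map ((s a)⁻¹ * ·)) = H (a :: u) x := by
        intro H hH
        have := hH (s a) ((a :: u).map (a⁻¹ * ·)) (x.map ((s a)⁻¹ * ·))
        rw [← this, hs]
        congr 1 <;> simp [Function.comp_def]
      rw [h2, ← h1, h3 F Finv, h3 (dh l) linv.dh]
      ring

end Pool.Agent.H6.Ext.Stair
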