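import Mathlib

/-! Cochains on lists and the staircase in the double complex of a group extension. -/

namespace Pool.Agent.H6.Ext.Stair

variable {X Y k : Type*} [CommRing k]

/-- The coboundary: `δ f [x₀, ..., xₙ] = ∑ (-1)^i f [x₀, ..., omit xᵢ, ..., xₙ]`. -/
def delta (f : List X → k) : List X → k
  | [] => 0
  | a :: l => f l - delta (fun m => f (a :: m)) l

@[simp] lemma delta_nil (f : List X → k) : delta f [] = 0 := rfl

@[simp] lemma delta_cons (f : List X → k) (a : X) (l : List X) :
    delta f (a :: l) = f l - delta (fun m => f (a :: m)) l := rfl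

lemma delta_sub (f g : List X → k) (l : List X) :
    delta (fun m => f m - g m) l = delta f l - delta g l := by
  induction l generalizing f g with
  | nil => simp
  | cons a l ih =>
    simp only [delta_cons]
    rw [ih]
    ring

lemma delta_mul (c : k) (f : List X → k) (l : List X) :
    delta (fun m => c * f m) l = c * delta f l := by
  induction l generalizing f with
  | nil => simp
  | cons a l ih =>
    simp only [delta_cons]
    rw [ih]
    ring

lemma delta_zero (l : List X) : delta (fun _ => (0 : k)) l = 0 := by
  have := delta_mul (0 : k) (fun _ => (0 : k)) l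
  simpa using this

lemma delta_congr {f g : List X → k} {n : ℕ} (h : ∀ m, m.length = n → f m = g m) (l : List X)
    (hl : l.length = n + 1) : delta f l = delta g l := by
  induction l generalizing f g n with
  | nil => rfl
  | cons a l ih =>
    simp only [List.length_cons, Nat.add_right_cancel_iff] at hl
    simp only [delta_cons]
    rw [h l hl]
    cases l with
    | nil => rfl
    | cons b l =>
      simp only [List.length_cons] at hl
      rw [ih (n := l.length) (fun m hm => h _ (by simp only [List.length_cons]; omega)) rfl]

lemma delta_delta (f : List X → k) (l : List X) : delta (delta f) l = 0 := by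
  induction l generalizing f with
  | nil => rfl
  | cons a l ih =>
    simp only [delta_cons]
    rw [delta_sub, ih]
    ring

/-- horizontal coboundary (first list) -/
def dh (F : List X → List Y → k) (q : List X) (x : List Y) : k := delta (fun q => F q x) q

/-- vertical coboundary (second list) -/
def dv (F : List X → List Y → k) (q : List X) (x : List Y) : k := delta (F q) x

lemma dh_dh (F : List X → List Y → k) (q : List X) (x : List Y) : dh (dh F) q x = 0 :=
  delta_delta _ _

lemma dv_dv (F : List X → List Y → k) (q : List X) (x : List Y) : dv (dv F) q x = 0 :=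
  delta_delta _ _

lemma dh_dv (F : List X → List Y → k) (q : List X) (x : List Y) :
    dh (dv F) q x = dv (dh F) q x := by
  induction q generalizing F with
  | nil =>
    change (0 : k) = delta (fun x => delta (fun q => F q x) []) x
    simp only [delta_nil]
    rw [delta_zero]
  | cons a q ih =>
    have h := ih (fun q => F (a :: q))
    change delta (F q) x - dh (dv (fun q => F (a :: q))) q x =
      delta (fun x => F q x - delta (fun m => F (a :: m) x) q) x
    rw [h, delta_sub]
    rfl

lemma delta_append (K : List X → k) (q y : List X) :
    delta K (q ++ y) = delta (fun l => K (l ++ y)) q +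
      (-1) ^ q.length * delta (fun l => K (q ++ l)) y := by
  induction q generalizing K with
  | nil => simp
  | cons a q ih =>
    simp only [List.cons_append, delta_cons, List.length_cons]
    rw [ih]
    ring

lemma delta_map (p : Y → X) (K : List X → k) (l : List Y) :
    delta K (l.map p) = delta (fun m => K (m.map p)) l := by
  induction l generalizing K with
  | nil => rfl
  | cons a l ih =>
    simp only [List.map_cons, delta_cons]
    rw [ih]

variable {G Q : Type*} [Group G] [Group Q]

/-- a cochain of `G` is invariant under left multiplication -/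
def Inv (f : List G → k) : Prop := ∀ (g : G) (l : List G), f (l.map (g * ·)) = f l

/-- a cochain on `Q` and `G` is invariant under left multiplication by `G` -/
def Inv2 (π : G →* Q) (F : List Q → List G → k) : Prop :=
  ∀ (g : G) (q : List Q) (x : List G), F (q.map (π g * ·)) (x.map (g * ·)) = F q x

lemma Inv2.dh {π : G →* Q} {F : List Q → List G → k} (h : Inv2 π F) : Inv2 π (dh F) := by
  intro g q x
  unfold Stair.dh
  rw [delta_map]
  congr 1
  funext m
  exact h g m x

lemma Inv2.sub {π : G →* Q} {F F' : List Q → List G → k} (h : Inv2 π F) (h' : Inv2 π F') :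
    Inv2 π (fun q x => F q x - F' q x) := by
  intro g q x
  simp only
  rw [h, h']

/-- `H^q(N; k)^Q = 0` (`q ≥ 1`), `N` the kernel of `π` -/
def E2zero (π : G →* Q) (k : Type*) [CommRing k] (q : ℕ) : Prop :=
  ∀ F : List Q → List G → k, Inv2 π F →
    (∀ u x, u.length = 1 → x.length = q + 2 → dv F u x = 0) →
    (∃ F' : List Q → List G → k, Inv2 π F' ∧
      ∀ u x, u.length = 2 → x.length = q + 1 → dh F u x = dv F' u x) →
    ∃ c : List Q → List G → k, Inv2 π c ∧
      ∀ u x, u.length = 1 → x.length = q + 1 → F u x = dv c u x

/-- `H^p(Q; H^q(N; k)) = 0` (`p, q ≥ 1`), `N` the kernel of `π` -/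
def E2 (π : G →* Q) (k : Type*) [CommRing k] (p q : ℕ) : Prop :=
  ∀ F : List Q → List G → k, Inv2 π F →
    (∀ u x, u.length = p + 1 → x.length = q + 2 → dv F u x = 0) →
    (∃ F' : List Q → List G → k, Inv2 π F' ∧
      ∀ u x, u.length = p + 2 → x.length = q + 1 → dh F u x = dv F' u x) →
    ∃ l c : List Q → List G → k, Inv2 π l ∧ Inv2 π c ∧
      (∀ u x, u.length = p → x.length = q + 2 → dv l u x = 0) ∧
      ∀ u x, u.length = p + 1 → x.length = q + 1 → F u x = dh l u x + dv c u x

/-- signs -/
def sgn (k : Type*) [CommRing k] : ℕ → k
  | 0 => 1
  | n + 1 => (-1) ^ n * sgn k n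

lemma sgn_sq (n : ℕ) : sgn k n * sgn k n = 1 := by
  induction n with
  | zero => simp [sgn]
  | succ n ih =>
    simp only [sgn]
    have : ((-1 : k) ^ n) * ((-1) ^ n) = 1 := by
      rw [← mul_pow]
      simp
    linear_combination (sgn k n * sgn k n) * this + ih

lemma dh_congr {F F' : List X → List Y → k} {n : ℕ} {u : List X} {x : List Y}
    (h : ∀ v, v.length = n → F v x = F' v x) (hu : u.length = n + 1) : dh F u x = dh F' u x :=
  delta_congr h u hu

theorem staircase (π : G →* Q) (hπ : Function.Surjective π) (m : ℕ) (hm : 2 ≤ m)
    (f : List Q → k) (hf : Inv f) (hc : ∀ l, l.length = m + 2 → delta f l = 0)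
    (b : List G → k) (hb : Inv b)
    (hinf : ∀ l : List G, l.length = m + 1 → f (l.map π) = delta b l)
    (h0 : E2zero π k (m - 1)) (h1 : ∀ p q, 1 ≤ p → 1 ≤ q → p + q + 1 = m → E2 π k p q) :
    ∃ t : List Q → k, Inv t ∧ ∀ l, l.length = m + 1 → f l = delta t l := by
  classical
  set K : List Q → List G → k := fun u x => f (u ++ x.map π) with hK
  set T : List Q → List G → k := fun u x => sgn k u.length * K u x with hT
  have Kinv : Inv2 π K := by
    intro g u x
    simp only [hK]
    have e : (x.map (g * ·)).map π = (x.map π).map (π g * ·) := by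
      simp [Function.comp_def]
    rw [e, ← List.map_append, hf]
  have Tinv : Inv2 π T := by
    intro g u x
    simp only [hT, List.length_map]
    rw [Kinv]
  have Krel : ∀ u x, u.length + x.length = m + 2 →
      dh K u x + (-1) ^ u.length * dv K u x = 0 := by
    intro u x hl
    have h := delta_append f u (x.map π)
    rw [hc _ (by simpa using hl), delta_map] at h
    exact h.symm
  have Trel : ∀ u x, u.length + x.length = m + 2 → 1 ≤ u.length → dh T u x = dv T u x := by
    intro u x hl hu
    obtain ⟨n, hn⟩ : ∃ n, u.length = n + 1 := ⟨u.length - 1, by omega⟩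
    have e1 : dh T u x = sgn k n * dh K u x := by
      rw [dh_congr (F' := fun v x => sgn k n * K v x) (n := n)
        (fun v hv => by simp only [hT]; rw [hv]) hn]
      exact delta_mul _ _ _
    have e2 : dv T u x = sgn k (n + 1) * dv K u x := by
      have : dv T u x = delta (fun y => sgn k u.length * K u y) x := rfl
      rw [this, delta_mul, hn]
      rfl
    have h := Krel u x hl
    rw [hn, pow_succ] at h
    rw [e1, e2]
    simp only [sgn]
    linear_combination (sgn k n) * h
  have key : ∀ n, 1 ≤ n → n ≤ m → ∃ F : List Q → List G → k, Inv2 π F ∧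
      (∀ u x, u.length = n → x.length + n = m + 2 → dv F u x = 0) ∧
      (∀ u x, u.length = n + 1 → x.length + n = m + 1 → dh F u x = dv T u x) := by
    intro n hn
    induction n, hn using Nat.le_induction with
    | base =>
      intro _
      refine ⟨fun u x => T u x - b x, Tinv.sub (fun g _ x => hb g x), ?_, ?_⟩
      · intro u x hu hx
        obtain ⟨a, rfl⟩ := List.length_eq_one_iff.1 hu
        have e1 : dv (fun u x => T u x - b x) [a] x = dv T [a] x - delta b x :=
          delta_sub _ _ _
        have e2 := Trel [a] x (by simp only [List.length_singleton]; omega) (by simp)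
        have e3 : dh T [a] x = f (x.map π) := by
          change T [] x - 0 = _
          simp [hT, hK, sgn]
        rw [e1, ← e2, e3, hinf x (by omega), sub_self]
      · intro u x hu hx
        have e1 : dh (fun u x => T u x - b x) u x = dh T u x - delta (fun _ => b x) u :=
          delta_sub _ _ _
        have e2 : delta (fun _ : List Q => b x) u = 0 := by
          match u, hu with
          | [c, d], _ => simp
        rw [e1, e2, sub_zero]
        exact Trel u x (by omega) (by omega)
    | succ n hn ih =>
      intro hnm
      obtain ⟨F, Finv, F1, F2⟩ := ih (by omega)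
      -- the vertical class of `F` vanishes
      obtain ⟨c, cinv, hcF⟩ : ∃ c : List Q → List G → k, Inv2 π c ∧
          ∀ u x, u.length = n + 1 → x.length + n = m + 1 → dh (fun u x => F u x - dv c u x) u x = 0 := by
        rcases Nat.eq_or_lt_of_le hn with h | h
        · subst h
          obtain ⟨c, cinv, hcc⟩ := h0 F Finv (fun u x hu hx => F1 u x hu (by omega))
            ⟨T, Tinv, fun u x hu hx => F2 u x hu (by omega)⟩
          refine ⟨c, cinv, fun u x hu hx => ?_⟩
          rw [dh_congr (F' := fun _ _ => (0 : k)) (n := 1) (fun v hv => by
            rw [hcc v x hv (by omega), sub_self]) hu]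
          exact delta_zero _
        · obtain ⟨p, rfl⟩ : ∃ p, n = p + 1 := ⟨n - 1, by omega⟩
          obtain ⟨q, hq⟩ : ∃ q, p + q + 1 = m := ⟨m - 1 - p, by omega⟩
          obtain ⟨l, c, linv, cinv, l1, hcc⟩ := h1 p q (by omega) (by omega) hq F Finv
            (fun u x hu hx => F1 u x hu (by omega))
            ⟨T, Tinv, fun u x hu hx => F2 u x hu (by omega)⟩
          refine ⟨c, cinv, fun u x hu hx => ?_⟩
          rw [dh_congr (F' := dh l) (n := p + 1) (fun v hv => by
            rw [hcc v x hv (by omega), add_sub_cancel_right]) hu]
          exact dh_dh _ _ _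
      refine ⟨fun u x => T u x - dh c u x, Tinv.sub cinv.dh, ?_, ?_⟩
      · intro u x hu hx
        have e1 : dv (fun u x => T u x - dh c u x) u x = dv T u x - dv (dh c) u x :=
          delta_sub _ _ _
        have e2 : dh (fun u x => F u x - dv c u x) u x = dh F u x - dh (dv c) u x :=
          delta_sub _ _ _
        have e3 := hcF u x hu (by omega)
        rw [e2, F2 u x hu (by omega), dh_dv] at e3
        rw [e1]
        exact e3
      · intro u x hu hx
        have e1 : dh (fun u x => T u x - dh c u x) u x = dh T u x - dh (dh c) u x :=
          delta_sub _ _ _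
        rw [e1, dh_dh, sub_zero]
        exact Trel u x (by omega) (by omega)
  obtain ⟨F, Finv, F1, F2⟩ := key m (by omega) le_rfl
  have ind : ∀ u a, u.length = m → F u [a] = F u [1] := by
    intro u a hu
    have h := F1 u [1, a] hu (by simp; omega)
    change F u [a] - (F u [1] - 0) = 0 at h
    linear_combination h
  refine ⟨fun u => if u.length = m then sgn k (m + 1) * F u [1] else 0, ?_, ?_⟩
  · intro q u
    simp only [List.length_map]
    by_cases hu : u.length = m
    · rw [if_pos hu, if_pos hu]
      obtain ⟨g, rfl⟩ := hπ q
      have h := Finv g u [1]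
      simp only [List.map_cons, List.map_nil, mul_one] at h
      rw [ind _ g (by simpa using hu)] at h
      rw [h]
    · rw [if_neg hu, if_neg hu]
  · intro u hu
    have e1 : delta (fun u => if u.length = m then sgn k (m + 1) * F u [1] else 0) u =
        delta (fun u => sgn k (m + 1) * F u [1]) u :=
      delta_congr (n := m) (fun v hv => by rw [if_pos hv]) u hu
    rw [e1, delta_mul]
    have h := F2 u [1] hu (by simp; omega)
    have e2 : delta (fun u => F u [1]) u = dh F u [1] := rfl
    have e3 : dv T u [1] = sgn k (m + 1) * f u := by
      change T u [] - 0 = _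
      simp [hT, hK, hu]
    rw [e2, h, e3, ← mul_assoc, sgn_sq, one_mul]

end Pool.Agent.H6.Ext.Stair
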